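import Pool.Agent.N295.SR.Stm3

/-!
# The discs close to the north pole (helper622)
-/

set_option autoImplicit false

open MeasureTheory Set Real Filter Topology

namespace Pool.Agent.N622.SR

open Pool.Agent.N295.SR

lemma exp_two_log {a : ℝ} (ha : 0 < a) : Real.exp (2 * Real.log a) = a ^ 2 := by
  rw [show 2 * Real.log a = (2 : ℕ) * Real.log a by norm_num, Real.exp_nat_mul, Real.exp_log ha]

lemma aux_sq (S : ℝ) : 1 + S ≤ 2 + S ^ 2 := by nlinarith [sq_nonneg (S - 1)]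

lemma np_le (hNP : S_NP) (t θ : ℝ) : ‖merc t θ - np‖ ≤ 2 * Real.exp (-t) := by
  have h1 := hNP.1 t θ
  have h2 : (2 * Real.exp (-t)) ^ 2 * Real.exp (2 * t) = 4 := by
    have h3 : Real.exp (-t) * Real.exp (-t) * Real.exp (2 * t) = 1 := by
      rw [← Real.exp_add, ← Real.exp_add, show -t + -t + 2 * t = 0 by ring, Real.exp_zero]
    calc (2 * Real.exp (-t)) ^ 2 * Real.exp (2 * t)
        = 4 * (Real.exp (-t) * Real.exp (-t) * Real.exp (2 * t)) := by ring
      _ = 4 := by rw [h3, mul_one]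
  have h4 : 4 / (Real.exp (2 * t) + 1) ≤ (2 * Real.exp (-t)) ^ 2 := by
    have h5 := Real.exp_pos (2 * t)
    rw [div_le_iff₀ (by positivity)]
    nlinarith [sq_nonneg (2 * Real.exp (-t))]
  rw [← h1] at h4
  exact (sq_le_sq₀ (norm_nonneg _) (by positivity)).mp h4

/-- the centers considered -/
def Near (ε s : ℝ) (p : E3) : Prop :=
  p = np ∨ ∃ t θ : ℝ, 0 ≤ θ ∧ θ ≤ 2 * π ∧ ε * s ≤ Real.exp t ∧ p = merc t θ

lemma near_np (hNP : S_NP) {ε s : ℝ} (hε : 0 < ε) (hs : 0 < s) {p : E3} (hp : Near ε s p) :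
    ‖p - np‖ ≤ 2 / (ε * s) := by
  rcases hp with rfl | ⟨t, θ, _, _, h1, rfl⟩
  · rw [sub_self, norm_zero]
    positivity
  · refine (np_le hNP t θ).trans ?_
    rw [Real.exp_neg, ← div_eq_mul_inv]
    exact div_le_div_of_nonneg_left (by norm_num) (by positivity) h1

lemma merc_norm (t θ : ℝ) : ‖merc t θ‖ = 1 := by
  rw [← sq_eq_sq₀ (norm_nonneg _) zero_le_one, EuclideanSpace.norm_sq_eq]
  simp only [merc, Fin.sum_univ_three, Real.norm_eq_abs, sq_abs]
  have h1 := Real.cosh_pos t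
  have h2 := Real.cos_sq_add_sin_sq θ
  have h3 := Real.cosh_sq t
  simp [Real.tanh_eq_sinh_div_cosh]
  field_simp
  nlinarith

lemma near_norm (hNP : S_NP) {ε s : ℝ} {p : E3} (hp : Near ε s p) : ‖p‖ = 1 := by
  rcases hp with rfl | ⟨t, θ, _, _, _, rfl⟩
  · exact hNP.2.2.2.2.2.2.2.1
  · exact merc_norm t θ

/-- every disc contains a box of a fixed size -/
lemma box_in (hBIN : S_BIN) (hNP : S_NP) (hDUP : S_DUP) {ρ : ℝ → ℝ} {ρm ρM C ε A₃ β s : ℝ}
    (hM : Met ρ ρm ρM) (hC : 0 < C) (hε : 0 < ε) (hs : 0 < s) (hβ0 : 0 < β) (hβ1 : β ≤ 1)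
    (hβ : 4 * β * Real.sqrt ρM < ε * C / 2) (hA₃ : ε ≤ A₃)
    (hA₃' : π * Real.sqrt ρM * (Real.exp 1 + 1) < C * A₃) {p : E3} (hp : Near ε s p) :
    ∃ tb θb : ℝ, Real.log (ε * s) ≤ tb ∧ tb ≤ Real.log (A₃ * s) ∧ 0 ≤ θb ∧ θb ≤ 2 * π ∧
      ∀ x y : ℝ, |x - tb| ≤ β → |y - θb| ≤ β → merc x y ∈ disc ρ p (C / s) := by
  have hA₃0 : 0 < A₃ := lt_of_lt_of_le hε hA₃
  have hlog : Real.log (ε * s) ≤ Real.log (A₃ * s) :=
    Real.log_le_log (by positivity) (by gcongr)
  -- the far centers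
  have hfar : ∀ θ : ℝ, 0 ≤ θ → θ ≤ 2 * π → ‖p - np‖ ≤ 2 / (A₃ * s) →
      ∃ tb θb : ℝ, Real.log (ε * s) ≤ tb ∧ tb ≤ Real.log (A₃ * s) ∧ 0 ≤ θb ∧ θb ≤ 2 * π ∧
      ∀ x y : ℝ, |x - tb| ≤ β → |y - θb| ≤ β → merc x y ∈ disc ρ p (C / s) := by
    intro θ hθ0 hθ1 hpn
    refine ⟨Real.log (A₃ * s), θ, hlog, le_rfl, hθ0, hθ1, fun x y hx _ => ?_⟩
    refine ⟨merc_norm x y, ?_⟩
    refine lt_of_le_of_lt (hDUP ρ ρM hM.c (fun z => lt_of_lt_of_le hM.pos (hM.lo z)) hM.hi p
      (merc x y) (near_norm hNP hp) (merc_norm x y)) ?_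
    have h1 : ‖merc x y - np‖ ≤ 2 * Real.exp 1 / (A₃ * s) := by
      refine (np_le hNP x y).trans ?_
      have h2 : Real.log (A₃ * s) - 1 ≤ x := by
        have := (abs_le.mp hx).1
        linarith
      have h3 : Real.exp (-x) ≤ Real.exp 1 / (A₃ * s) := by
        calc Real.exp (-x) ≤ Real.exp (1 - Real.log (A₃ * s)) :=
              Real.exp_le_exp.mpr (by linarith)
          _ = Real.exp 1 / (A₃ * s) := by
              rw [Real.exp_sub, Real.exp_log (by positivity)]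
      calc 2 * Real.exp (-x) ≤ 2 * (Real.exp 1 / (A₃ * s)) := by gcongr
        _ = 2 * Real.exp 1 / (A₃ * s) := by ring
    have h2 : ‖p - merc x y‖ ≤ 2 * (Real.exp 1 + 1) / (A₃ * s) := by
      have h3 : p - merc x y = (p - np) - (merc x y - np) := by abel
      rw [h3]
      refine (norm_sub_le _ _).trans ((add_le_add hpn h1).trans (le_of_eq ?_))
      ring
    calc π / 2 * Real.sqrt ρM * ‖p - merc x y‖
        ≤ π / 2 * Real.sqrt ρM * (2 * (Real.exp 1 + 1) / (A₃ * s)) := by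
          gcongr
      _ = (π * Real.sqrt ρM * (Real.exp 1 + 1)) / (A₃ * s) := by ring
      _ < (C * A₃) / (A₃ * s) := by gcongr
      _ = C / s := by field_simp
  rcases hp with hp | ⟨t, θ, hθ0, hθ1, ht, hp⟩
  · refine hfar 0 le_rfl (by positivity) ?_
    rw [hp, sub_self, norm_zero]
    positivity
  · rcases le_or_gt t (Real.log (A₃ * s)) with h1 | h1
    · refine ⟨t, θ, ?_, h1, hθ0, hθ1, fun x y hx hy => ?_⟩
      · rw [Real.log_le_iff_le_exp (by positivity)]
        exact ht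
      · rw [hp]
        refine hBIN ρ ρm ρM hM t θ x y β (C / s) hβ0.le hβ1 hx hy ?_
        have h2 : ε * s / 2 ≤ cosh t := by
          rw [Real.cosh_eq]
          have := Real.exp_pos (-t)
          linarith
        calc 4 * β * Real.sqrt ρM < ε * C / 2 := hβ
          _ = C / s * (ε * s / 2) := by field_simp
          _ ≤ C / s * cosh t := by gcongr
    · refine hfar θ hθ0 hθ1 ?_
      rw [hp]
      refine (np_le hNP t θ).trans ?_
      have h2 : A₃ * s ≤ Real.exp t := by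
        rw [← Real.log_le_iff_le_exp (by positivity)]
        exact h1.le
      rw [Real.exp_neg, ← div_eq_mul_inv]
      exact div_le_div_of_nonneg_left (by norm_num) (by positivity) h2

/-- the points of the discs of double radius -/
lemma disc_out (hNP : S_NP) (hDLOW : S_DLOW) {ρ : ℝ → ℝ} {ρm ρM C ε A₂ s : ℝ}
    (hM : Met ρ ρm ρM) (hC : 0 < C) (hε : 0 < ε) (hs : 0 < s)
    (hA₂ : A₂ = 2 * C / Real.sqrt ρm + 2 / ε) (hs2 : A₂ ^ 2 ≤ 3 * s ^ 2) {p : E3}
    (hp : Near ε s p) {q : E3} (hq : q ∈ disc ρ p (2 * (C / s))) :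
    q = np ∨ ∃ x y : ℝ, Real.log (s / A₂) ≤ x ∧ q = merc x y := by
  have hρ : 0 < Real.sqrt ρm := Real.sqrt_pos.mpr hM.pos
  have hA₂0 : 0 < A₂ := by rw [hA₂]; positivity
  obtain ⟨hq1, hq2⟩ := hq
  have h1 := hDLOW ρ ρm hM.c hM.pos hM.lo p q (near_norm hNP hp) hq1
  have h2 : ‖p - q‖ < 2 * (C / s) / Real.sqrt ρm := by
    rw [lt_div_iff₀ hρ, mul_comm]
    exact lt_of_le_of_lt h1 hq2
  have h3 := near_np hNP hε hs hp
  have h4 : ‖q - np‖ < A₂ / s := by
    have h5 : q - np = (p - np) - (p - q) := by abel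
    rw [h5]
    refine lt_of_le_of_lt (norm_sub_le _ _) (lt_of_lt_of_le (add_lt_add_of_le_of_lt h3 h2)
      (le_of_eq ?_))
    rw [hA₂]
    field_simp
    ring
  have h4' : ‖q - np‖ ^ 2 < (A₂ / s) ^ 2 :=
    (sq_lt_sq₀ (norm_nonneg _) (by positivity)).mpr h4
  have h6 : (A₂ / s) ^ 2 ≤ 3 := by
    rw [div_pow, div_le_iff₀ (by positivity)]
    exact hs2
  rcases hNP.2.2.1 q hq1 with h | h | ⟨x, y, _, _, h⟩
  · exact Or.inl h
  · exfalso
    have h7 : ‖q - np‖ ^ 2 = 4 := by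
      rw [h, EuclideanSpace.norm_sq_eq, Fin.sum_univ_three]
      simp [N295.SR.refl, np]
      norm_num
    linarith
  · refine Or.inr ⟨x, y, ?_, h⟩
    rw [h, hNP.1 x y] at h4'
    have hx := Real.exp_pos (2 * x)
    rw [div_lt_iff₀ (by positivity), div_pow, div_mul_eq_mul_div, lt_div_iff₀ (by positivity)]
      at h4'
    have h8 : s ^ 2 ≤ A₂ ^ 2 * Real.exp (2 * x) := by nlinarith
    have h9 : (s / A₂) ^ 2 ≤ (Real.exp x) ^ 2 := by
      rw [div_pow, div_le_iff₀ (by positivity), ← Real.exp_nat_mul]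
      push_cast
      linarith
    rw [Real.log_le_iff_le_exp (by positivity)]
    exact (sq_le_sq₀ (by positivity) (Real.exp_pos x).le).mp h9

set_option maxHeartbeats 1000000 in
theorem BADN : S_BIN → S_NP → S_DOUB → S_POT → S_CE → S_ANN → S_BOX → S_DLOW → S_DUP →
    S_BADN := by
  intro hBIN hNP hDOUB hPOT hCE hANN hBOX hDLOW hDUP ρm ρM C C₁ ε hρm hρM hC hC₁ hε
  obtain ⟨Z₀, hZ₀, hCE⟩ := hCE
  have hsm : 0 < Real.sqrt ρm := Real.sqrt_pos.mpr hρm
  have hsM : 0 < Real.sqrt ρM := Real.sqrt_pos.mpr hρM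
  have hpi := Real.pi_pos
  have he1 := Real.exp_pos 1
  set A₂ : ℝ := 2 * C / Real.sqrt ρm + 2 / ε with hA₂
  have hA₂0 : 0 < A₂ := by positivity
  set A₃ : ℝ := ε + π * Real.sqrt ρM * (Real.exp 1 + 1) / C + 1 with hA₃
  have hA₃0 : 0 < A₃ := by positivity
  have hA₃ε : ε ≤ A₃ := by
    have : 0 < π * Real.sqrt ρM * (Real.exp 1 + 1) / C := by positivity
    rw [hA₃]
    linarith
  have hA₃C : π * Real.sqrt ρM * (Real.exp 1 + 1) < C * A₃ := by
    have h1 : C * A₃ = π * Real.sqrt ρM * (Real.exp 1 + 1) + C * (ε + 1) := by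
      rw [hA₃]
      field_simp
      ring
    rw [h1]
    have : 0 < C * (ε + 1) := by positivity
    linarith
  set A₄ : ℝ := A₃ + Real.sqrt (32 * ρM) with hA₄
  have hA₄0 : 0 < A₄ := by positivity
  have hA₃₄ : A₃ ≤ A₄ := by
    have := Real.sqrt_nonneg (32 * ρM)
    linarith
  have hA₄sq : 32 * ρM ≤ A₄ ^ 2 := by
    have h1 := Real.sq_sqrt (show 0 ≤ 32 * ρM by positivity)
    have h2 := Real.sqrt_nonneg (32 * ρM)
    rw [hA₄]
    nlinarith
  set m : ℝ := min ε (1 / A₂) with hm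
  have hm0 : 0 < m := lt_min hε (by positivity)
  set β : ℝ := min 1 (ε * C / (8 * (Real.sqrt ρM + 1))) / 2 with hβdef
  have hβ0 : 0 < β := by positivity
  have hβ1 : β ≤ 1 := by
    have := min_le_left 1 (ε * C / (8 * (Real.sqrt ρM + 1)))
    rw [hβdef]
    linarith
  have hβ : 4 * β * Real.sqrt ρM < ε * C / 2 := by
    have h1 : β ≤ ε * C / (8 * (Real.sqrt ρM + 1)) / 2 := by
      have := min_le_right 1 (ε * C / (8 * (Real.sqrt ρM + 1)))
      rw [hβdef]
      linarith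
    calc 4 * β * Real.sqrt ρM ≤ 4 * (ε * C / (8 * (Real.sqrt ρM + 1)) / 2) * Real.sqrt ρM := by
          gcongr
      _ = ε * C / 4 * (Real.sqrt ρM / (Real.sqrt ρM + 1)) := by
          field_simp
          ring
      _ ≤ ε * C / 4 * 1 := by
          have : Real.sqrt ρM / (Real.sqrt ρM + 1) ≤ 1 := by
            rw [div_le_one (by positivity)]
            linarith
          gcongr
      _ < ε * C / 2 := by
          have : 0 < ε * C := by positivity
          linarith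
  set ℓ : ℝ := Real.log (A₄ / m) + 1 with hℓ
  have hmA : m ≤ A₄ := (min_le_left _ _).trans (hA₃ε.trans hA₃₄)
  have hℓ0 : 0 < ℓ := by
    have h1 : 0 ≤ Real.log (A₄ / m) := Real.log_nonneg ((one_le_div hm0).mpr hmA)
    rw [hℓ]
    linarith
  set Q₀ : ℝ := 4 * ρM * Real.exp (2 * (ℓ + 20)) / m ^ 2 with hQ₀
  have hQ₀0 : 0 < Q₀ := by positivity
  obtain ⟨C', hC', hANN⟩ := hANN Q₀ ℓ β hQ₀0 hℓ0 hβ0
  -- the constants of the result
  set B₁ : ℝ := (4 + C' * Z₀) * (2 + 4 * ρM) + C' with hB₁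
  have hB₁0 : 0 < B₁ := by positivity
  set B₂ : ℝ := C₁ * ((Real.log (A₃ / ε) + 2) * (2 * π + 2)) / (2 * β) ^ 2 with hB₂
  have hlogA : 0 ≤ Real.log (A₃ / ε) := Real.log_nonneg ((one_le_div hε).mpr hA₃ε)
  have hB₂0 : 0 < B₂ := by positivity
  have hlog2 : 0 < Real.log 2 := Real.log_pos (by norm_num)
  refine ⟨B₂ * (B₁ / Real.log 2), A₂ ^ 2, by positivity, by positivity, ?_⟩
  intro ρ lam φ hM hφ hlam ι _ c hc hmult
  have hlam0 : 0 < lam := hφ.pos
  set s : ℝ := Real.sqrt lam with hs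
  have hs0 : 0 < s := Real.sqrt_pos.mpr hlam0
  have hs2 : s ^ 2 = lam := Real.sq_sqrt hlam0.le
  have hnear : ∀ i, Near ε s (c i) := hc
  have hsA : A₂ ^ 2 ≤ 3 * s ^ 2 := by
    rw [hs2]
    linarith
  choose tb θb htb1 htb2 hθb1 hθb2 hbox using fun i =>
    box_in hBIN hNP hDUP hM hC hε hs0 hβ0 hβ1 hβ hA₃ε hA₃C (hnear i)
  -- the number of discs
  have hcard : (Fintype.card ι : ℝ) ≤ B₂ := by
    have h1 := hBOX (Real.log (ε * s)) (Real.log (A₃ * s)) β C₁ ι (fun i => (tb i, θb i)) hβ0 hβ1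
      (Real.log_le_log (by positivity) (by gcongr)) (fun i => ⟨htb1 i, htb2 i⟩)
      (fun i => ⟨hθb1 i, hθb2 i⟩) (fun x y => by
        refine le_trans ?_ (hmult (merc x y) (merc_norm x y))
        norm_cast
        exact Set.ncard_le_ncard (fun i hi => hbox i x y hi.1 hi.2) (Set.toFinite _))
    have h2 : Real.log (A₃ * s) - Real.log (ε * s) = Real.log (A₃ / ε) := by
      rw [← Real.log_div (by positivity) (by positivity)]
      congr 1
      field_simp
    rw [h2] at h1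
    rw [hB₂, le_div_iff₀ (by positivity)]
    exact h1
  -- the eigenfunction in Mercator coordinates
  obtain ⟨K, φx, φxx, φy, φyy, hK, hCyl, hCnt⟩ := hCE ρ ρm ρM lam φ hM hφ
  set S : ℝ := Real.sqrt (4 * lam * ρM) with hS
  have hS0 : 0 ≤ S := Real.sqrt_nonneg _
  have hS2 : S ^ 2 = 4 * lam * ρM := Real.sq_sqrt (by positivity)
  set Z : ℝ := Z₀ * (1 + S) with hZ
  have hZ0 : 0 ≤ Z := by positivity
  set Ta : ℝ := Real.log (m * s) with hTa
  set Tb : ℝ := Real.log (A₄ * s) with hTb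
  have hTab : Ta ≤ Tb := Real.log_le_log (by positivity) (by gcongr)
  have hTabℓ : Tb - Ta ≤ ℓ := by
    rw [hTa, hTb, ← Real.log_div (by positivity) (by positivity), hℓ]
    have : A₄ * s / (m * s) = A₄ / m := by field_simp
    rw [this]
    linarith
  have hpotn : ∀ x, 0 ≤ pot ρ lam x := fun x => (hPOT ρ ρm ρM lam x hM hlam0).1
  have hpotx : ∀ x, pot ρ lam x ≤ 4 * lam * ρM * Real.exp (-2 * x) := fun x =>
    (hPOT ρ ρm ρM lam x hM hlam0).2.2.2
  have hq1 : ∀ x, Ta - (ℓ + 20) ≤ x → |pot ρ lam x| ≤ Q₀ := by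
    intro x hx
    rw [abs_of_nonneg (hpotn x)]
    refine (hpotx x).trans ?_
    have h1 : Real.exp (-2 * x) ≤ Real.exp (2 * (ℓ + 20)) / (m * s) ^ 2 := by
      calc Real.exp (-2 * x) ≤ Real.exp (2 * (ℓ + 20) - 2 * Ta) :=
            Real.exp_le_exp.mpr (by linarith)
        _ = Real.exp (2 * (ℓ + 20)) / (m * s) ^ 2 := by
            rw [Real.exp_sub, hTa, exp_two_log (by positivity)]
    calc 4 * lam * ρM * Real.exp (-2 * x)
        ≤ 4 * lam * ρM * (Real.exp (2 * (ℓ + 20)) / (m * s) ^ 2) := by gcongr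
      _ = Q₀ := by
          rw [hQ₀, mul_pow, hs2]
          field_simp
  have hq2 : ∀ x, Tb ≤ x → 0 ≤ pot ρ lam x ∧
      pot ρ lam x ≤ Real.exp (-2 * (x - Tb)) / 8 := by
    intro x _
    refine ⟨hpotn x, (hpotx x).trans ?_⟩
    have h1 : Real.exp (-2 * x) = Real.exp (-2 * (x - Tb)) / (A₄ * s) ^ 2 := by
      rw [eq_div_iff (by positivity)]
      have h2 : (A₄ * s) ^ 2 = Real.exp (2 * Tb) := by
        rw [hTb, exp_two_log (by positivity)]
      rw [h2, ← Real.exp_add]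
      congr 1
      ring
    rw [h1]
    have h3 := Real.exp_pos (-2 * (x - Tb))
    have h4 : 4 * lam * ρM * (Real.exp (-2 * (x - Tb)) / (A₄ * s) ^ 2) =
        Real.exp (-2 * (x - Tb)) * (4 * ρM / A₄ ^ 2) := by
      rw [mul_pow, hs2]
      field_simp
    rw [h4, div_eq_mul_inv (Real.exp (-2 * (x - Tb))) 8]
    refine mul_le_mul_of_nonneg_left ?_ h3.le
    rw [div_le_iff₀ (by positivity)]
    linarith
  -- growth
  set E : ℝ := Real.log (4 * (K + 1)) + C' * (1 + Z) with hE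
  have hK0 : (0 : ℝ) ≤ K := Nat.cast_nonneg K
  have hE0 : 0 ≤ E := by
    have : 0 ≤ Real.log (4 * ((K : ℝ) + 1)) := Real.log_nonneg (by linarith)
    positivity
  have hEle : E ≤ B₁ * (1 + lam) := by
    have h1 : Real.log (4 * ((K : ℝ) + 1)) ≤ 4 * (1 + S) := by
      have := Real.log_le_sub_one_of_pos (show 0 < 4 * ((K : ℝ) + 1) by positivity)
      linarith
    have h2 : 1 + S ≤ 2 + 4 * lam * ρM := by
      rw [← hS2]
      exact aux_sq S
    have h3 : E ≤ (4 + C' * Z₀) * (1 + S) + C' := by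
      have h4 : C' * (1 + Z) = C' + C' * Z₀ * (1 + S) := by
        rw [hZ]
        ring
      have h5 : (4 + C' * Z₀) * (1 + S) + C' = 4 * (1 + S) + (C' + C' * Z₀ * (1 + S)) := by ring
      rw [hE, h4, h5]
      linarith
    refine h3.trans ?_
    calc (4 + C' * Z₀) * (1 + S) + C' ≤ (4 + C' * Z₀) * (2 + 4 * lam * ρM) + C' := by gcongr
      _ ≤ B₁ * (1 + lam) := by
          rw [hB₁]
          have h6 : ((4 + C' * Z₀) * (2 + 4 * ρM) + C') * (1 + lam) =
              ((4 + C' * Z₀) * (2 + 4 * lam * ρM) + C') +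
              ((4 + C' * Z₀) * (4 * ρM + 2 * lam) + C' * lam) := by ring
          rw [h6]
          have h7 : 0 < (4 + C' * Z₀) * (4 * ρM + 2 * lam) + C' * lam := by positivity
          linarith
  have hdoub : ∀ i, doubling ρ φ (c i) (C / s) ≤ E / Real.log 2 := by
    intro i
    refine hDOUB ρ φ (c i) (C / s) E hφ.cont hE0 ?_
    intro κ hκ
    have hbx : ∀ x' y', |x' - tb i| ≤ β → |y' - θb i| ≤ β → |φ (merc x' y')| ≤ κ :=
      fun x' y' h1 h2 => hκ _ (hbox i x' y' h1 h2)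
    have hta : Ta ≤ tb i := by
      refine le_trans (Real.log_le_log (by positivity) ?_) (htb1 i)
      gcongr
      exact min_le_left _ _
    have htb' : tb i ≤ Tb := (htb2 i).trans (Real.log_le_log (by positivity) (by gcongr))
    have hgrow := hANN (pot ρ lam) K (fun t θ => φ (merc t θ)) φx φxx φy φyy Z Ta Tb hCyl hCnt
      hZ0 hTab hTabℓ hq1 hq2 (tb i) (θb i) κ hta htb' hbx
    have hexp : κ * (4 * (K + 1)) * Real.exp (C' * (1 + Z)) = κ * Real.exp E := by
      rw [hE, Real.exp_add, Real.exp_log (by positivity)]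
      ring
    rw [hexp] at hgrow
    intro q hq
    rcases disc_out hNP hDLOW hM hC hε hs0 hA₂ hsA (hnear i) hq with h | ⟨x, y, hx, h⟩
    · rw [h]
      -- the pole, by continuity
      have ht := hNP.2.2.2.1 0
      have hnp : np ∈ Metric.sphere (0 : E3) 1 := by
        rw [mem_sphere_zero_iff_norm]
        exact hNP.2.2.2.2.2.2.2.1
      have h1 : Tendsto (fun t => merc t 0) atTop (𝓝[Metric.sphere 0 1] np) := by
        rw [tendsto_nhdsWithin_iff]
        refine ⟨ht, Filter.Eventually.of_forall fun t => ?_⟩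
        rw [mem_sphere_zero_iff_norm]
        exact merc_norm t 0
      have h2 : Tendsto (fun t => |φ (merc t 0)|) atTop (𝓝 |φ np|) :=
        ((hφ.cont np hnp).tendsto.comp h1).abs
      refine le_of_tendsto h2 ?_
      filter_upwards [Filter.eventually_ge_atTop Ta] with t ht'
      exact hgrow t 0 ht'
    · rw [h]
      refine hgrow x y (le_trans ?_ hx)
      refine Real.log_le_log (by positivity) ?_
      calc m * s ≤ 1 / A₂ * s := by
            gcongr
            exact min_le_right _ _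
        _ = s / A₂ := by ring
  -- the sum
  calc ∑ i, max (doubling ρ φ (c i) (C / s)) 0 ≤ ∑ _i : ι, B₁ * (1 + lam) / Real.log 2 := by
        refine Finset.sum_le_sum fun i _ => ?_
        refine max_le ((hdoub i).trans ?_) (by positivity)
        gcongr
    _ = Fintype.card ι * (B₁ * (1 + lam) / Real.log 2) := by
        rw [Finset.sum_const, Finset.card_univ, nsmul_eq_mul]
    _ ≤ B₂ * (B₁ * (1 + lam) / Real.log 2) := by gcongr
    _ = B₂ * (B₁ / Real.log 2) * (1 + lam) := by ring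

end Pool.Agent.N622.SR
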